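import Mathlib

/-!
# The Euler part of an odd perfect number

For an odd perfect number `q ^ k * n ^ 2` in Eulerian form with `k > 1`:
`q ^ (k + 1) < (k + 1) * n ^ 2`.
-/

set_option autoImplicit false

namespace Pool.Agent.Results.MP_b66bcd_nt.EulerPartIndex

open ArithmeticFunction Finset

/-- geometric sums -/
theorem geo {p : ℕ} (hp : p.Prime) (i : ℕ) :
    sigma 1 (p ^ i) * (p - 1) + 1 = p ^ (i + 1) := by
  have h1 : p - 1 + 1 = p := Nat.sub_add_cancel hp.one_lt.le
  have h := geom_sum_mul_add (p - 1) (i + 1)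
  rw [h1] at h
  rw [sigma_one_apply_prime_pow hp]
  exact h

theorem le_sig {n : ℕ} (hn : n ≠ 0) : n ≤ sigma 1 n := by
  rw [sigma_one_apply]
  exact single_le_sum (f := fun d => d) (fun _ _ => Nat.zero_le _) (Nat.mem_divisors_self n hn)

theorem coprime_sig_self {p : ℕ} (hp : p.Prime) (i : ℕ) : Nat.Coprime (sigma 1 (p ^ i)) p := by
  rw [sigma_one_apply_prime_pow hp, Finset.sum_range_succ']
  rw [pow_zero]
  have h : p ∣ ∑ k ∈ range i, p ^ (k + 1) := dvd_sum fun k _ => dvd_pow_self p (Nat.succ_ne_zero k)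
  obtain ⟨t, ht⟩ := h
  rw [ht]
  simp

/-- The valuation of `σ (q ^ k)` at an odd prime divisor of `q + 1`. -/
theorem val_sig {p q k K : ℕ} (hp : p.Prime) (hp2 : p ≠ 2) (hq : q.Prime) (hpq : p ∣ q + 1)
    (hk : k + 1 = 2 * K) (hK : K ≠ 0) :
    padicValNat p (sigma 1 (q ^ k)) = padicValNat p (q + 1) + padicValNat p K := by
  have : Fact p.Prime := ⟨hp⟩
  have hq1 : 1 < q := hq.one_lt
  have hW0 : sigma 1 (q ^ k) ≠ 0 := by
    have := le_sig (n := q ^ k) (pow_ne_zero _ hq.ne_zero)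
    have h2 : 0 < q ^ k := pow_pos hq.pos _
    omega
  have h1 : sigma 1 (q ^ k) * (q - 1) = (q ^ 2) ^ K - 1 ^ K := by
    rw [← pow_mul, ← hk, one_pow]
    have := geo hq k
    omega
  have hpx : p ∣ q ^ 2 - 1 := by
    have : q ^ 2 - 1 = (q + 1) * (q - 1) := by
      have := Nat.sq_sub_sq q 1
      simpa using this
    rw [this]
    exact hpq.mul_right _
  have hnp : ¬ p ∣ q ^ 2 := by
    intro h
    have h2 : p ∣ q := hp.dvd_of_dvd_pow h
    have h3 : p ∣ 1 := (Nat.dvd_add_right h2).1 hpq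
    exact hp.one_lt.ne' (Nat.dvd_one.1 h3)
  have h3 := padicValNat.pow_sub_pow (p := p) (x := q ^ 2) (y := 1) (hp.odd_of_ne_two hp2)
    (one_lt_pow₀ hq1 two_ne_zero) hpx hnp hK
  rw [← h1] at h3
  have h4 : q ^ 2 - 1 = (q + 1) * (q - 1) := by
    have := Nat.sq_sub_sq q 1
    simpa using this
  rw [h4, padicValNat.mul hW0 (by omega), padicValNat.mul (by omega) (by omega)] at h3
  omega

/-- The two relations between `n`, `m = σ (n ^ 2) / q ^ k` and `σ (q ^ k)`. -/
theorem setup {q k n : ℕ} (hodd : Odd (q ^ k * n ^ 2)) (hperf : Nat.Perfect (q ^ k * n ^ 2))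
    (hq : q.Prime) (hcop : Nat.Coprime q n) :
    ∃ m, m ≠ 0 ∧ sigma 1 (n ^ 2) = q ^ k * m ∧ sigma 1 (q ^ k) * m = 2 * n ^ 2 := by
  have hn0 : n ≠ 0 := by
    rintro rfl
    simp at hodd
  have hpos : 0 < q ^ k * n ^ 2 := Nat.mul_pos (pow_pos hq.pos _) (by positivity)
  have h1 : sigma 1 (q ^ k * n ^ 2) = 2 * (q ^ k * n ^ 2) := by
    rw [sigma_one_apply]
    exact (Nat.perfect_iff_sum_divisors_eq_two_mul hpos).1 hperf
  have hc : Nat.Coprime (q ^ k) (n ^ 2) := (hcop.pow_left k).pow_right 2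
  rw [isMultiplicative_sigma.map_mul_of_coprime hc] at h1
  have h2 : Nat.Coprime (q ^ k) (sigma 1 (q ^ k)) := (coprime_sig_self hq k).symm.pow_left k
  have h3 : q ^ k ∣ sigma 1 (n ^ 2) := by
    refine h2.dvd_of_dvd_mul_left ?_
    rw [h1]
    exact ⟨2 * n ^ 2, by ring⟩
  obtain ⟨m, hm⟩ := h3
  have hs0 : sigma 1 (n ^ 2) ≠ 0 := by
    have := le_sig (n := n ^ 2) (pow_ne_zero _ hn0)
    have h2 : 0 < n ^ 2 := by positivity
    omega
  refine ⟨m, ?_, hm, ?_⟩
  · rintro rfl
    rw [mul_zero] at hm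
    exact hs0 hm
  · rw [hm] at h1
    have h4 : q ^ k * (sigma 1 (q ^ k) * m) = q ^ k * (2 * n ^ 2) := by
      rw [show q ^ k * (sigma 1 (q ^ k) * m) = sigma 1 (q ^ k) * (q ^ k * m) by ring, h1]
      ring
    exact Nat.eq_of_mul_eq_mul_left (pow_pos hq.pos k) h4

theorem dvd_sig {q k K : ℕ} (hq : q.Prime) (hk : k + 1 = 2 * K) : q + 1 ∣ sigma 1 (q ^ k) := by
  have hq1 := hq.one_lt
  have h1 : sigma 1 (q ^ k) * (q - 1) = (q ^ 2) ^ K - 1 ^ K := by
    rw [← pow_mul, ← hk, one_pow]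
    have := geo hq k
    omega
  have h4 : q ^ 2 - 1 = (q + 1) * (q - 1) := by
    have := Nat.sq_sub_sq q 1
    simpa using this
  have h2 := Nat.sub_dvd_pow_sub_pow (q ^ 2) 1 K
  rw [← h1, h4] at h2
  exact Nat.dvd_of_mul_dvd_mul_right (by omega) h2

theorem arith_two {x y : ℕ} (h : (2 * x + 5) * (y + 2) < (y + 2 + 1) * (x + 3)) : False := by
  have h1 : 0 ≤ x * y := Nat.zero_le _
  nlinarith

/-- `p = t + 1`, `t * μ = 1 + P * j`, `t ∣ 1 + P * j`, `P ≡ 1` modulo `t`. -/
theorem arith_one {t μ P j : ℕ} (ht : 2 ≤ t) (hP : t + 1 ≤ P) (hPt : t ∣ P - 1)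
    (h : t * μ = 1 + P * j) (hμ : Odd μ) (hlt : μ * μ * t < (t + 1) * P) : False := by
  obtain ⟨w, hw⟩ := hPt
  have hPw : P = t * w + 1 := by omega
  -- `t ∣ 1 + j`
  have h1 : t ∣ 1 + j := by
    have h2 : t ∣ t * (w * j) + (1 + j) := by
      have h3 : t * (w * j) + (1 + j) = t * μ := by
        rw [h, hPw]
        ring
      rw [h3]
      exact dvd_mul_right _ _
    exact (Nat.dvd_add_right (dvd_mul_right _ _)).1 h2
  obtain ⟨e, he⟩ := h1
  have he1 : 1 ≤ e := by
    rcases Nat.eq_zero_or_pos e with h0 | h0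
    · rw [h0, mul_zero] at he
      omega
    · exact h0
  -- `j ≥ t - 1`
  obtain ⟨s, hs⟩ : ∃ s, t = s + 1 := ⟨t - 1, by omega⟩
  have hj : s ≤ j := by nlinarith
  have h4 : 1 + P * s ≤ t * μ := by
    rw [h]
    have := Nat.mul_le_mul_left P hj
    omega
  have h5 : (t * μ) * (t * μ) < (t + 1) * P * t := by
    calc (t * μ) * (t * μ) = μ * μ * t * t := by ring
      _ < (t + 1) * P * t := Nat.mul_lt_mul_of_pos_right hlt (by omega)
  have h6 : (1 + P * s) * (1 + P * s) ≤ (t * μ) * (t * μ) := Nat.mul_le_mul h4 h4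
  have h7 : (1 + P * s) * (1 + P * s) < (s + 2) * P * (s + 1) := by
    have := h6.trans_lt h5
    rw [hs] at this
    exact this
  rcases Nat.lt_or_ge s 2 with h8 | h8
  · have h9 : s = 1 := by omega
    subst h9
    have h10 : t = 2 := by omega
    subst h10
    have h11 : P < 4 := by
      by_contra h12
      push Not at h12
      nlinarith
    have h13 : P = 3 := by omega
    subst h13
    obtain ⟨y, hy⟩ := hμ
    have h14 : μ < 3 := by
      by_contra h12
      push Not at h12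
      nlinarith
    have h15 : μ = 1 := by omega
    subst h15
    omega
  · have h9 : (s + 2) * (s + 1) ≤ P * s * s := by
      have h10 : s + 2 ≤ P := by omega
      calc (s + 2) * (s + 1) ≤ (s + 2) * (s * s) := by
            apply Nat.mul_le_mul_left
            nlinarith
        _ ≤ P * (s * s) := Nat.mul_le_mul_right _ h10
        _ = P * s * s := by ring
    have h11 : (s + 2) * P * (s + 1) ≤ P * s * (P * s) := by
      calc (s + 2) * P * (s + 1) = P * ((s + 2) * (s + 1)) := by ring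
        _ ≤ P * (P * s * s) := Nat.mul_le_mul_left _ h9
        _ = P * s * (P * s) := by ring
    have h12 : P * s * (P * s) ≤ (1 + P * s) * (1 + P * s) :=
      Nat.mul_le_mul (Nat.le_add_left _ _) (Nat.le_add_left _ _)
    omega

/-- Case 1: `q` divides `σ (p ^ (2 a))` for some odd prime `p ∣ q + 1`, `p ^ a ∥ n`. -/
theorem case_one {p q k K n m a r : ℕ} (hp : p.Prime) (hp2 : p ≠ 2) (hq : q.Prime)
    (hq4 : q % 4 = 1) (hpq : p ∣ q + 1) (hk : k + 1 = 2 * K) (hK : K ≠ 0) (hnodd : Odd n)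
    (hm0 : m ≠ 0) (hm : sigma 1 (n ^ 2) = q ^ k * m) (hW : sigma 1 (q ^ k) * m = 2 * n ^ 2)
    (hn : n = p ^ a * r) (hr : ¬ p ∣ r) (hdiv : q ∣ sigma 1 (p ^ (2 * a))) : q ≤ K * m := by
  have : Fact p.Prime := ⟨hp⟩
  have hpo : Odd p := hp.odd_of_ne_two hp2
  have hp3 : 3 ≤ p := by
    have := hp.two_le
    omega
  have hn0 : n ≠ 0 := by
    rintro rfl
    simp at hnodd
  have hr0 : r ≠ 0 := by
    rintro rfl
    simp at hr
  have hcr : Nat.Coprime (p ^ (2 * a)) (r ^ 2) :=
    (((Nat.Prime.coprime_iff_not_dvd hp).2 hr).pow_left _).pow_right 2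
  have hsp : n ^ 2 = p ^ (2 * a) * r ^ 2 := by rw [hn]; ring
  have hS0 : sigma 1 (p ^ (2 * a)) ≠ 0 := by
    have := le_sig (n := p ^ (2 * a)) (pow_ne_zero _ hp.ne_zero)
    have h2 : 0 < p ^ (2 * a) := pow_pos hp.pos _
    omega
  obtain ⟨b, μ, hμq, hb⟩ := Nat.exists_eq_pow_mul_and_not_dvd hS0 q hq.ne_one
  have hb1 : 1 ≤ b := by
    rcases Nat.eq_zero_or_pos b with h | h
    · rw [h, pow_zero, one_mul] at hb
      exact absurd (hb ▸ hdiv) hμq
    · exact h
  have hμ0 : μ ≠ 0 := by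
    rintro rfl
    simp at hμq
  -- `μ ∣ m`
  have h1 : sigma 1 (n ^ 2) = sigma 1 (p ^ (2 * a)) * sigma 1 (r ^ 2) := by
    rw [hsp, isMultiplicative_sigma.map_mul_of_coprime hcr]
  have hμm : μ ∣ m := by
    have h2 : μ ∣ q ^ k * m := by
      rw [← hm, h1, hb]
      exact ⟨q ^ b * sigma 1 (r ^ 2), by ring⟩
    have h3 : Nat.Coprime μ (q ^ k) :=
      (((Nat.Prime.coprime_iff_not_dvd hq).2 hμq).symm).pow_right k
    exact h3.dvd_of_dvd_mul_left h2
  obtain ⟨m', rfl⟩ := hμm
  have hm'0 : m' ≠ 0 := by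
    rintro rfl
    simp at hm0
  -- the part of `p`
  set W := sigma 1 (q ^ k) with hWdef
  have hW0 : W ≠ 0 := by
    intro h
    rw [h, zero_mul] at hW
    have : 0 < 2 * n ^ 2 := by positivity
    omega
  have hval := val_sig (k := k) hp hp2 hq hpq hk hK
  rw [← hWdef] at hval
  obtain ⟨c, W', hW'p, hWc⟩ := Nat.exists_eq_pow_mul_and_not_dvd hW0 p hp.ne_one
  have hc : padicValNat p W = c := by
    rw [hWc, padicValNat.mul (pow_ne_zero _ hp.ne_zero) (by rintro rfl; simp at hW'p),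
      padicValNat.prime_pow, padicValNat.eq_zero_of_not_dvd hW'p, add_zero]
  set P := p ^ padicValNat p (q + 1) with hP
  set z := p ^ padicValNat p K with hz
  have hPz : p ^ c = P * z := by
    rw [← hc, hval, pow_add]
  have hzK : z ≤ K := Nat.le_of_dvd (Nat.pos_of_ne_zero hK) pow_padicValNat_dvd
  have hPq : P ∣ q + 1 := pow_padicValNat_dvd
  have hPq' : P ∣ q + 1 := hPq
  have hPodd : Odd P := hpo.pow
  have hPp : p ≤ P := by
    have h2 : 1 ≤ padicValNat p (q + 1) := one_le_padicValNat_of_dvd (by omega) hpq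
    calc p = p ^ 1 := (pow_one p).symm
      _ ≤ P := Nat.pow_le_pow_right hp.pos h2
  -- `gcd (μ, p) = 1`
  have hμp : Nat.Coprime (p ^ (2 * a)) μ := by
    have h2 : Nat.Coprime (sigma 1 (p ^ (2 * a))) p := coprime_sig_self hp _
    rw [hb] at h2
    exact (Nat.Coprime.coprime_mul_left h2).symm.pow_left _
  have hdvd : p ^ (2 * a) ∣ p ^ c * m' := by
    have h2 : p ^ (2 * a) ∣ W' * (μ * (p ^ c * m')) := by
      have h3 : W' * (μ * (p ^ c * m')) = 2 * n ^ 2 := by
        rw [← hW, hWc]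
        ring
      rw [h3, hsp]
      exact ⟨2 * r ^ 2, by ring⟩
    have h4 : Nat.Coprime (p ^ (2 * a)) W' :=
      ((Nat.Prime.coprime_iff_not_dvd hp).2 hW'p).pow_left _
    exact hμp.dvd_of_dvd_mul_left (h4.dvd_of_dvd_mul_left h2)
  have hle : p ^ (2 * a) ≤ P * z * m' := by
    rw [← hPz]
    exact Nat.le_of_dvd (Nat.mul_pos (pow_pos hp.pos _) (Nat.pos_of_ne_zero hm'0)) hdvd
  have hgeo := geo hp (2 * a)
  rw [hb] at hgeo
  by_contra hcon
  push Not at hcon
  -- main inequality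
  obtain ⟨t, ht⟩ : ∃ t, p = t + 1 := ⟨p - 1, by omega⟩
  have hpt : p - 1 = t := by omega
  rw [hpt] at hgeo
  have hkey : q ^ b * μ * μ * t < p * P * q := by
    have h2 : q ^ b * μ * t < p * p ^ (2 * a) := by
      have : p ^ (2 * a + 1) = p * p ^ (2 * a) := by ring
      omega
    have h3 : q ^ b * μ * t * μ < p * p ^ (2 * a) * μ :=
      Nat.mul_lt_mul_of_pos_right h2 (Nat.pos_of_ne_zero hμ0)
    have h4 : p * p ^ (2 * a) * μ ≤ p * (P * z * m') * μ :=
      Nat.mul_le_mul_right _ (Nat.mul_le_mul_left _ hle)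
    have h5 : p * (P * z * m') * μ = p * P * (z * (μ * m')) := by ring
    have h6 : z * (μ * m') ≤ K * (μ * m') := Nat.mul_le_mul_right _ hzK
    have h7 : p * P * (z * (μ * m')) ≤ p * P * q :=
      Nat.mul_le_mul_left _ (h6.trans hcon.le)
    calc q ^ b * μ * μ * t = q ^ b * μ * t * μ := by ring
      _ < p * P * q := by rw [h5] at h4; exact h3.trans_le (h4.trans h7)
  obtain ⟨h', hh'⟩ := hPq
  have hh2 : 2 ≤ h' := by
    rcases Nat.lt_or_ge h' 2 with h | h
    · exfalso
      have h8 : h' = 0 ∨ h' = 1 := by omega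
      rcases h8 with h8 | h8
      · rw [h8] at hh'
        omega
      · rw [h8, mul_one] at hh'
        obtain ⟨j, hj⟩ := hPodd
        omega
    · exact h
  have hq2P : 2 * P ≤ q + 1 := by
    rw [hh']
    nlinarith
  obtain ⟨b', rfl⟩ : ∃ b', b = b' + 1 := ⟨b - 1, by omega⟩
  have hkey2 : q ^ b' * μ * μ * t < p * P := by
    have h2 : q * (q ^ b' * μ * μ * t) < q * (p * P) := by
      calc q * (q ^ b' * μ * μ * t) = q ^ (b' + 1) * μ * μ * t := by ring
        _ < p * P * q := hkey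
        _ = q * (p * P) := by ring
    exact lt_of_mul_lt_mul_left h2 (Nat.zero_le q)
  have hμ1 : 1 ≤ μ := Nat.pos_of_ne_zero hμ0
  rcases Nat.eq_zero_or_pos b' with hb' | hb'
  · -- `b = 1`
    subst hb'
    rw [pow_zero, one_mul] at hkey2
    rw [zero_add, pow_one] at hgeo
    -- `P ∣ p ^ (2 a + 1)`
    have hqW : q + 1 ∣ W := dvd_sig hq hk
    have hPd : P ∣ p ^ (2 * a + 1) := by
      have h2 : P ∣ 2 * n ^ 2 := by
        rw [← hW]
        exact (hPq'.trans hqW).mul_right _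
      have h3 : Nat.Coprime P (2 * r ^ 2) := by
        rw [hP]
        refine Nat.Coprime.pow_left _ ((Nat.Prime.coprime_iff_not_dvd hp).2 ?_)
        intro h4
        rcases (Nat.Prime.dvd_mul hp).1 h4 with h5 | h5
        · exact hp2 ((Nat.prime_dvd_prime_iff_eq hp Nat.prime_two).1 h5)
        · exact hr (hp.dvd_of_dvd_pow h5)
      have h4 : P ∣ p ^ (2 * a) := by
        refine h3.dvd_of_dvd_mul_left ?_
        have h5 : 2 * r ^ 2 * p ^ (2 * a) = 2 * n ^ 2 := by rw [hsp]; ring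
        rw [h5]
        exact h2
      exact h4.trans (pow_dvd_pow p (by omega))
    -- `t * μ = 1 + P * j`
    obtain ⟨j, hj⟩ : ∃ j, t * μ = 1 + P * j := by
      obtain ⟨y, hy⟩ := hPd
      -- `(P h' - 1) μ t + 1 = P y`
      have h2 : P * h' * μ * t + 1 = P * y + μ * t := by
        rw [hy] at hgeo
        have h3 : q * μ * t + μ * t = P * h' * μ * t := by
          rw [← hh']
          ring
        omega
      have h3 : 1 ≤ μ * t := Nat.mul_pos (Nat.pos_of_ne_zero hμ0) (by omega)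
      refine ⟨h' * μ * t - y, ?_⟩
      have h4 : y ≤ h' * μ * t := by
        have h5 : P * y ≤ P * (h' * μ * t) := by
          have : P * (h' * μ * t) = P * h' * μ * t := by ring
          omega
        exact Nat.le_of_mul_le_mul_left h5 (by omega)
      rw [Nat.mul_sub]
      have h5 : P * (h' * μ * t) = P * h' * μ * t := by ring
      have h6 : P * y ≤ P * (h' * μ * t) := Nat.mul_le_mul_left _ h4
      have h7 : t * μ = μ * t := mul_comm _ _
      omega
    have hPt : t ∣ P - 1 := by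
      have h2 := Nat.sub_dvd_pow_sub_pow p 1 (padicValNat p (q + 1))
      rw [one_pow, hpt] at h2
      exact h2
    have hμodd : Odd μ := by
      obtain ⟨w, hw⟩ := hqW
      have h2 : (q + 1) / 2 * w * (μ * m') = n ^ 2 := by
        have h3 : q + 1 = 2 * ((q + 1) / 2) := by omega
        have h4 : 2 * ((q + 1) / 2 * w * (μ * m')) = 2 * n ^ 2 := by
          rw [← hW, hw]
          calc 2 * ((q + 1) / 2 * w * (μ * m')) = 2 * ((q + 1) / 2) * w * (μ * m') := by ring
            _ = (q + 1) * w * (μ * m') := by rw [← h3]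
        omega
      have h3 : Odd (n ^ 2) := hnodd.pow
      rw [← h2] at h3
      exact (Nat.odd_mul.1 (Nat.odd_mul.1 h3).2).1
    refine arith_one (by omega) (by omega) hPt hj hμodd ?_
    rw [← ht]
    exact hkey2
  · have h2 : q ≤ q ^ b' := by
      calc q = q ^ 1 := (pow_one q).symm
        _ ≤ q ^ b' := Nat.pow_le_pow_right hq.pos hb'
    have h3 : q * t ≤ q ^ b' * μ * μ * t := by
      have : q * 1 * 1 * t ≤ q ^ b' * μ * μ * t := by gcongr
      simpa using this
    have h4 : q * t < p * P := h3.trans_lt hkey2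
    subst ht
    have h5 : 3 ≤ P := hp3.trans hPp
    obtain ⟨P', hP'⟩ : ∃ P', P = P' + 3 := ⟨P - 3, by omega⟩
    obtain ⟨t', ht'⟩ : ∃ t', t = t' + 2 := ⟨t - 2, by omega⟩
    have h6 : 2 * P' + 5 ≤ q := by omega
    have h7 : (2 * P' + 5) * t ≤ q * t := Nat.mul_le_mul_right _ h6
    rw [hP', ht'] at h4
    rw [ht'] at h7
    exact arith_two (h7.trans_lt h4)

/-- Case 2: `q` does not divide `σ (p ^ (2 a))` for the prime divisors `p` of `h = (q + 1) / 2`. -/
theorem case_two {q k n m h : ℕ} (hq : q.Prime) (hn0 : n ≠ 0) (hm0 : m ≠ 0) (hh0 : h ≠ 0)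
    (hm : sigma 1 (n ^ 2) = q ^ k * m) (hh : h ∣ n ^ 2)
    (hnd : ∀ p ∈ h.primeFactors, ¬ q ∣ sigma 1 (p ^ (n ^ 2).factorization p)) : h ≤ m := by
  have hN0 : n ^ 2 ≠ 0 := pow_ne_zero _ hn0
  set T := ∏ p ∈ h.primeFactors, sigma 1 (p ^ (n ^ 2).factorization p) with hT
  have h1 : T ∣ sigma 1 (n ^ 2) := by
    rw [isMultiplicative_sigma.multiplicative_factorization (sigma 1) hN0]
    unfold Finsupp.prod
    rw [Nat.support_factorization]
    exact prod_dvd_prod_of_subset _ _ _ (Nat.primeFactors_mono hh hN0)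
  have h2 : Nat.Coprime T (q ^ k) := by
    refine Nat.Coprime.pow_right _ (Nat.Coprime.prod_left fun p hp => ?_)
    exact ((Nat.Prime.coprime_iff_not_dvd hq).2 (hnd p hp)).symm
  have h3 : T ∣ m := by
    rw [hm] at h1
    exact h2.dvd_of_dvd_mul_left h1
  have h4 : h ≤ T := by
    calc h = ∏ p ∈ h.primeFactors, p ^ h.factorization p :=
          (Nat.prod_factorization_pow_eq_self hh0).symm
      _ ≤ T := by
          refine prod_le_prod' fun p hp => ?_
          have hp' : p.Prime := Nat.prime_of_mem_primeFactors hp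
          have h5 : h.factorization p ≤ (n ^ 2).factorization p :=
            (Nat.factorization_le_iff_dvd hh0 hN0).2 hh p
          exact (Nat.pow_le_pow_right hp'.pos h5).trans (le_sig (pow_ne_zero _ hp'.ne_zero))
  exact h4.trans (Nat.le_of_dvd (Nat.pos_of_ne_zero hm0) h3)

/-- Every odd perfect number `q ^ k * n ^ 2` in Eulerian form with `k > 1` satisfies
`q ^ (k + 1) < (k + 1) * n ^ 2`. -/
theorem result : ∀ N q k n : ℕ, Odd N → Nat.Perfect N → Nat.Prime q → q % 4 = 1 → k % 4 = 1 →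
    Nat.Coprime q n → N = q ^ k * n ^ 2 → 1 < k → q ^ (k + 1) < (k + 1) * n ^ 2 := by
  intro N q k n hodd hperf hq hq4 hk4 hcop hN hk1
  rw [hN] at hodd hperf
  obtain ⟨m, hm0, hm, hW⟩ := setup hodd hperf hq hcop
  obtain ⟨K, hK⟩ : ∃ K, k + 1 = 2 * K := ⟨(k + 1) / 2, by omega⟩
  have hK3 : 3 ≤ K := by omega
  have hnodd : Odd n := by
    have h1 := (Nat.odd_mul.1 hodd).2
    exact (Nat.odd_pow_iff two_ne_zero).1 h1
  have hn0 : n ≠ 0 := by
    rintro rfl
    simp at hnodd
  have hmain : q ≤ K * m := by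
    obtain ⟨h, hh⟩ : ∃ h, q + 1 = 2 * h := ⟨(q + 1) / 2, by omega⟩
    have hh0 : h ≠ 0 := by omega
    have hhodd : h % 2 = 1 := by omega
    have hhn : h ∣ n ^ 2 := by
      obtain ⟨w, hw⟩ := dvd_sig hq hK
      refine ⟨w * m, ?_⟩
      have h2 : 2 * (n ^ 2) = 2 * (h * (w * m)) := by
        rw [← hW, hw, hh]
        ring
      omega
    by_cases hc : ∀ p ∈ h.primeFactors, ¬ q ∣ sigma 1 (p ^ (n ^ 2).factorization p)
    · have h1 := case_two hq hn0 hm0 hh0 hm hhn hc
      nlinarith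
    · push Not at hc
      obtain ⟨p, hp, hdiv⟩ := hc
      have hpp : p.Prime := Nat.prime_of_mem_primeFactors hp
      have hph : p ∣ h := Nat.dvd_of_mem_primeFactors hp
      have hp2 : p ≠ 2 := by
        rintro rfl
        omega
      have hpq : p ∣ q + 1 := by
        rw [hh]
        exact hph.mul_left 2
      obtain ⟨a, r, hr, hn⟩ := Nat.exists_eq_pow_mul_and_not_dvd hn0 p hpp.ne_one
      have hfa : (n ^ 2).factorization p = 2 * a := by
        rw [Nat.factorization_pow, hn]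
        have hr0 : r ≠ 0 := by
          rintro rfl
          simp at hr
        rw [Nat.factorization_mul (pow_ne_zero _ hpp.ne_zero) hr0]
        simp [hpp.factorization, Nat.factorization_eq_zero_of_not_dvd hr]
      rw [hfa] at hdiv
      exact case_one hpp hp2 hq hq4 hpq hK (by omega) hnodd hm0 hm hW hn hr hdiv
  -- `q ^ k * m < 2 * n ^ 2`
  have hlt : q ^ k * m < 2 * n ^ 2 := by
    have h1 : q ^ k < sigma 1 (q ^ k) := by
      have h2 := geo hq k
      have hq1 := hq.one_lt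
      obtain ⟨t, ht⟩ : ∃ t, q = t + 1 := ⟨q - 1, by omega⟩
      by_contra hcon
      push Not at hcon
      have h3 : sigma 1 (q ^ k) * (q - 1) ≤ q ^ k * (q - 1) := Nat.mul_le_mul_right _ hcon
      have h4 : q ^ k * (q - 1) + q ^ k = q ^ (k + 1) := by
        rw [pow_succ]
        have h5 : q - 1 + 1 = q := by omega
        calc q ^ k * (q - 1) + q ^ k = q ^ k * (q - 1 + 1) := by ring
          _ = q ^ k * q := by rw [h5]
      have h6 : 1 < q ^ k := one_lt_pow₀ hq1 (by omega)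
      omega
    rw [← hW]
    exact Nat.mul_lt_mul_of_pos_right h1 (Nat.pos_of_ne_zero hm0)
  calc q ^ (k + 1) = q ^ k * q := pow_succ q k
    _ ≤ q ^ k * (K * m) := Nat.mul_le_mul_left _ hmain
    _ = K * (q ^ k * m) := by ring
    _ < K * (2 * n ^ 2) := Nat.mul_lt_mul_of_pos_left hlt (by omega)
    _ = (k + 1) * n ^ 2 := by rw [hK]; ring

end Pool.Agent.Results.MP_b66bcd_nt.EulerPartIndex
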