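import Pool.Agent.LibEP20.Main

/-!
# The Euler part of an odd perfect number whose Euler exponent is `5` modulo `12`
-/

set_option autoImplicit false

namespace Pool.Agent.Results.MP_b66bcd_nt.EulerPartSix

/-- Every odd perfect number `q ^ k * n ^ 2` in Eulerian form with `3 ∣ k + 1` (that is
`k ≡ 5` modulo `12`) satisfies `q ^ (4 k + 6) < 48 (k + 1) ^ 2 n ^ 8`. -/
theorem result : ∀ N q k n : ℕ, Odd N → Nat.Perfect N → Nat.Prime q → q % 4 = 1 → k % 4 = 1 →
    Nat.Coprime q n → N = q ^ k * n ^ 2 → 3 ∣ k + 1 →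
      q ^ (4 * k + 6) < 48 * (k + 1) ^ 2 * n ^ 8 := by
  intro N q k n hodd hperf hq hq4 hk4 hcop hN h3
  rw [hN] at hodd hperf
  exact Pool.Agent.LibEP20.main hodd hperf hq hq4 hk4 hcop h3

end Pool.Agent.Results.MP_b66bcd_nt.EulerPartSix
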