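import Pool.Agent.N87H.D

set_option autoImplicit false

namespace Pool.Agent.Results.MP_b66bcd_nt.ExponentKPlusTwo

theorem result {q k n K : ℕ} (hq : q.Prime) (hq4 : q % 4 = 1) (hk4 : k % 4 = 1) (hk1 : 1 < k)
    (hcop : Nat.Coprime q n) (hodd : Odd (q ^ k * n ^ 2)) (hperf : Nat.Perfect (q ^ k * n ^ 2))
    (hK : k + 1 = 2 * K) :
    q ^ (k + 2) ≤
      K ^ 2 * (2 * (3 * K) ^ (K - 1) + 1) ^ (2 * (K - 1)) * 2 ^ (k + 2) * n ^ 2 := by
  have hKo : Odd K := by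
    rw [Nat.odd_iff]
    omega
  exact Pool.Agent.N87H.mainH rfl rfl (by omega) hKo hodd hperf hq hcop hq4 hK

end Pool.Agent.Results.MP_b66bcd_nt.ExponentKPlusTwo
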