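import Pool.Agent.B17.Fin2

/-!
# The Euler part of an odd perfect number whose Euler exponent is `5` modulo `12`: exponent `k + 2`
-/

set_option autoImplicit false

namespace Pool.Agent.Results.MP_b66bcd_nt.ExponentPlusTwo

/-- Every odd perfect number `q ^ k * n ^ 2` in Eulerian form with `3 ∣ k + 1` (that is
`k ≡ 5` modulo `12`) satisfies `q ^ (k + 2) < 6 * 2 ^ k * n ^ 2`. -/
theorem result : ∀ N q k n : ℕ, Odd N → Nat.Perfect N → Nat.Prime q → q % 4 = 1 → k % 4 = 1 →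
    Nat.Coprime q n → N = q ^ k * n ^ 2 → 3 ∣ k + 1 → q ^ (k + 2) < 6 * 2 ^ k * n ^ 2 := by
  intro N q k n hodd hperf hq hq4 hk4 hcop hN h3
  rw [hN] at hodd hperf
  obtain ⟨L, hL⟩ : ∃ L, k + 1 = 6 * L := ⟨(k + 1) / 6, by omega⟩
  exact Pool.Agent.B17.main2 hodd hperf hq hq4 hcop hL (by omega)

end Pool.Agent.Results.MP_b66bcd_nt.ExponentPlusTwo
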